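import Pool.Agent.H5.GHK.FLG

/-!
Minors under the rotation of two neighbouring columns (for row WEY of the board ghk).
-/

set_option autoImplicit false

namespace Pool.Agent.H5.GHK

open MeasureTheory Pool.Agent.H34.GM Pool.Agent.H68.GHK Matrix

variable {m j n : ℕ}

/-- the columns `j, ..., j + n - 1` -/
def cn (h : j + n ≤ m) (w : Mat m) : Matrix (Fin m) (Fin n) ℝ :=
  w.submatrix id (fun b => ⟨j + b, by omega⟩)

/-- the minors by the projection -/
theorem gram_split (h : j + n ≤ m) {w : Mat m} (hw : w.det ≠ 0) :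
    mnr w (j + n) = mnr w j * ((cn h w).transpose * (1 - EP j w) * cn h w).det := by
  have hj : j ≤ m := by omega
  have h1 := gram_pos hj hw
  have hu : IsUnit ((cl hj w).transpose * cl hj w).det := isUnit_iff_ne_zero.2 h1.ne'
  obtain ⟨A, hA⟩ : ∃ A, A = cl hj w := ⟨_, rfl⟩
  obtain ⟨X, hX⟩ : ∃ X, X = cn h w := ⟨_, rfl⟩
  have h2 : (cl h w).submatrix id finSumFinEquiv = Matrix.fromCols A X := by
    ext a b
    rcases b with b | b
    · rw [hA]
      simp [cl]
      rfl
    · rw [hX]
      simp [cl, cn]
      rfl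
  have h3 : ((cl h w).transpose * cl h w).submatrix finSumFinEquiv finSumFinEquiv =
      Matrix.fromBlocks (A.transpose * A) (A.transpose * X) (X.transpose * A)
        (X.transpose * X) := by
    have h4 : ((cl h w).transpose * cl h w).submatrix finSumFinEquiv finSumFinEquiv =
        ((cl h w).submatrix id finSumFinEquiv).transpose *
          (cl h w).submatrix id finSumFinEquiv := by
      ext a b
      simp [Matrix.mul_apply]
    rw [h4, h2, Matrix.transpose_fromCols, Matrix.fromRows_mul_fromCols]
  rw [mnr_eq' h, mnr_eq' hj, ← Matrix.det_submatrix_equiv_self finSumFinEquiv, h3]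
  rw [← hA] at hu ⊢
  rw [ep_eq hj, ← hA, ← hX]
  let _ : Invertible (A.transpose * A) := Matrix.invertibleOfIsUnitDet _ hu
  rw [Matrix.det_fromBlocks₁₁, Matrix.invOf_eq_nonsing_inv]
  congr 2
  rw [Matrix.mul_sub, Matrix.mul_one, Matrix.sub_mul]
  congr 1
  simp only [Matrix.mul_assoc]

end Pool.Agent.H5.GHK
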